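import Pool.Agent.N139.FG.Stm

/-! Project FG (helper738): only finitely many characters vanish on a finite set, so the
abelianization is finitely generated. -/

set_option autoImplicit false

namespace Pool.Agent.N738.FG

open N139.FG

/-- from the rational numbers to the circle -/
noncomputable def E0 : ℚ →+ Additive Circle where
  toFun x := Additive.ofMul (Circle.exp ((x : ℝ) * (2 * Real.pi)))
  map_zero' := by simp
  map_add' x y := by
    rw [← ofMul_mul, ← Circle.exp_add]
    congr 2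
    push_cast
    ring

theorem E0_eq (x : ℚ) : E0 x = 0 ↔ ∃ n : ℤ, x = n := by
  have h : E0 x = 0 ↔ Circle.exp ((x : ℝ) * (2 * Real.pi)) = 1 := Iff.rfl
  rw [h, Circle.exp_eq_one]
  constructor
  · rintro ⟨n, hn⟩
    refine ⟨n, ?_⟩
    have h1 : (x : ℝ) = n := mul_right_cancel₀ (by positivity) hn
    exact_mod_cast h1
  · rintro ⟨n, rfl⟩
    exact ⟨n, by push_cast; rfl⟩

/-- from the rational numbers modulo one to the circle -/
noncomputable def E1 : AddCircle (1 : ℚ) →+ Additive Circle :=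
  QuotientAddGroup.lift (AddSubgroup.zmultiples (1 : ℚ)) E0 (by
    intro x hx
    obtain ⟨n, rfl⟩ := AddSubgroup.mem_zmultiples_iff.1 hx
    rw [AddMonoidHom.mem_ker, E0_eq]
    exact ⟨n, by simp⟩)

theorem E1_inj (x : AddCircle (1 : ℚ)) (h : E1 x = 0) : x = 0 := by
  obtain ⟨x, rfl⟩ := QuotientAddGroup.mk_surjective x
  have h1 : E0 x = 0 := h
  obtain ⟨n, rfl⟩ := (E0_eq x).1 h1
  refine (QuotientAddGroup.eq_zero_iff _).2 ?_
  exact AddSubgroup.mem_zmultiples_iff.2 ⟨n, by simp⟩

/-- characters of abelian groups separate subgroups from points -/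
theorem sep {A : Type} [CommGroup A] (N : Subgroup A) (a : A) (ha : a ∉ N) :
    ∃ ψ : A →* Circle, (∀ x ∈ N, ψ x = 1) ∧ ψ a ≠ 1 := by
  have h0 : (Additive.ofMul (QuotientGroup.mk a : A ⧸ N)) ≠ 0 := by
    intro h
    exact ha ((QuotientGroup.eq_one_iff a).1 h)
  obtain ⟨c, hc⟩ := CharacterModule.exists_character_apply_ne_zero_of_ne_zero h0
  let ψ : A →* Circle :=
    { toFun := fun x => (E1 (c (Additive.ofMul (QuotientGroup.mk x : A ⧸ N)))).toMul
      map_one' := by
        have h1 : Additive.ofMul (QuotientGroup.mk (1 : A) : A ⧸ N) = 0 := rfl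
        rw [h1, map_zero, map_zero]
        rfl
      map_mul' := fun x y => by
        have h1 : Additive.ofMul (QuotientGroup.mk (x * y) : A ⧸ N) =
          Additive.ofMul (QuotientGroup.mk x : A ⧸ N) +
            Additive.ofMul (QuotientGroup.mk y : A ⧸ N) := rfl
        rw [h1, map_add, map_add]
        rfl }
  refine ⟨ψ, fun x hx => ?_, fun h => ?_⟩
  · have h1 : Additive.ofMul (QuotientGroup.mk x : A ⧸ N) = 0 :=
      (QuotientGroup.eq_one_iff x).2 hx
    show (E1 (c (Additive.ofMul (QuotientGroup.mk x : A ⧸ N)))).toMul = 1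
    rw [h1, map_zero, map_zero]
    rfl
  · have h1 : E1 (c (Additive.ofMul (QuotientGroup.mk a : A ⧸ N))) = 0 := h
    exact hc (E1_inj _ h1)

/-- the `m`th roots of unity on the circle -/
theorem fin_roots (m : ℕ) (hm : 0 < m) : {z : Circle | z ^ m = 1}.Finite := by
  have h1 : ((fun z : Circle => (z : ℂ)) ⁻¹' (Polynomial.nthRootsFinset m (1 : ℂ) : Set ℂ)).Finite :=
    (Polynomial.nthRootsFinset m (1 : ℂ)).finite_toSet.preimage
      (Circle.coe_injective.injOn)
  refine h1.subset fun z hz => ?_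
  have hz' : z ^ m = 1 := hz
  show (z : ℂ) ∈ (Polynomial.nthRootsFinset m (1 : ℂ) : Set ℂ)
  rw [Finset.mem_coe, Polynomial.mem_nthRootsFinset hm, ← Circle.coe_pow, hz', Circle.coe_one]

theorem t_AFG : S_AFG := by
  intro G _ F hK
  have hKf : Finite {χ : G →* Circle | ∀ g ∈ F, χ g = 1} := hK
  -- finite order
  have h1 : ∀ χ : {χ : G →* Circle | ∀ g ∈ F, χ g = 1}, ∃ m : ℕ, 0 < m ∧
      ∀ g, (χ.1 g) ^ m = 1 := by
    intro χ
    have hpow : ∀ n : ℕ, χ.1 ^ n ∈ {χ : G →* Circle | ∀ g ∈ F, χ g = 1} := by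
      intro n g hg
      rw [MonoidHom.pow_apply, χ.2 g hg, one_pow]
    obtain ⟨i, j, hij, hχ⟩ := Finite.exists_ne_map_eq_of_infinite
      (fun n : ℕ => (⟨χ.1 ^ n, hpow n⟩ : {χ : G →* Circle | ∀ g ∈ F, χ g = 1}))
    have hχ' : χ.1 ^ i = χ.1 ^ j := congrArg Subtype.val hχ
    have key : ∀ i j : ℕ, i < j → χ.1 ^ i = χ.1 ^ j → ∃ m : ℕ, 0 < m ∧
        ∀ g, (χ.1 g) ^ m = 1 := by
      intro i j hlt h
      refine ⟨j - i, by omega, fun g => ?_⟩
      have h2 : (χ.1 g) ^ i = (χ.1 g) ^ j := by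
        have := DFunLike.congr_fun h g
        rwa [MonoidHom.pow_apply, MonoidHom.pow_apply] at this
      have h3 : (χ.1 g) ^ j = (χ.1 g) ^ i * (χ.1 g) ^ (j - i) := by
        rw [← pow_add]
        congr 1
        omega
      rw [h3] at h2
      exact (mul_eq_left.1 h2.symm)
    rcases lt_or_gt_of_ne hij with h | h
    · exact key i j h hχ'
    · exact key j i h hχ'.symm
  choose m hm hm1 using h1
  -- finitely many values
  let ev : G → ({χ : G →* Circle | ∀ g ∈ F, χ g = 1} → Circle) := fun g χ => χ.1 g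
  have hfin : (Set.range ev).Finite := by
    refine (Set.Finite.pi' (t := fun χ => {z : Circle | z ^ m χ = 1})
      fun χ => fin_roots (m χ) (hm χ)).subset ?_
    rintro _ ⟨g, rfl⟩ χ
    exact hm1 χ g
  have hfin' : Finite (Set.range ev) := hfin
  choose r hr using fun y : Set.range ev => y.2
  rw [Group.fg_iff]
  refine ⟨Abelianization.of '' (F : Set G) ∪ Set.range (fun y => Abelianization.of (r y)), ?_,
    (F.finite_toSet.image _).union (Set.finite_range _)⟩
  rw [eq_top_iff]
  rintro a -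
  obtain ⟨g, rfl⟩ := QuotientGroup.mk_surjective a
  have hg : (QuotientGroup.mk g : Abelianization G) = Abelianization.of g := rfl
  rw [hg]
  set y : Set.range ev := ⟨ev g, g, rfl⟩ with hy
  have h2 : ev (r y) = ev g := hr y
  have h3 : Abelianization.of (g * (r y)⁻¹) ∈
      Subgroup.closure (Abelianization.of '' (F : Set G)) := by
    by_contra hcon
    obtain ⟨ψ, hψ1, hψ2⟩ := sep _ _ hcon
    have h4 : ψ.comp Abelianization.of ∈ {χ : G →* Circle | ∀ g ∈ F, χ g = 1} := by
      intro f hf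
      exact hψ1 _ (Subgroup.subset_closure ⟨f, hf, rfl⟩)
    have h5 := congrFun h2 ⟨_, h4⟩
    have h6 : ψ (Abelianization.of (r y)) = ψ (Abelianization.of g) := h5
    apply hψ2
    rw [map_mul, map_mul, map_inv, map_inv, h6, mul_inv_cancel]
  have h4 : Abelianization.of g = Abelianization.of (g * (r y)⁻¹) * Abelianization.of (r y) := by
    rw [← map_mul, inv_mul_cancel_right]
  rw [h4]
  refine mul_mem ?_ (Subgroup.subset_closure (Or.inr ⟨y, rfl⟩))
  exact Subgroup.closure_mono Set.subset_union_left h3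

end Pool.Agent.N738.FG
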